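import Pool.Agent.Helper31.MHS.Two
import Pool.Agent.Helper31.TMS.Final
import Pool.Agent.Helper31.TMS.WTH
import Pool.Agent.Helper20.TMS.Sim
import Pool.Agent.Helper31.Gen5.Hard

/-!
# Sustained machines with several heads: hardness on average, relative to the errors, and almost
everywhere
-/

namespace Pool.Agent.Helper31.MHSH

open Pool.Agent.Helper65.LinSpace Pool.Agent.Helper28.Ram Pool.Agent.Helper78.Mpc
open Pool.Agent.Helper20.MH (MultiHead)
open Pool.Agent.Helper81.Sus2 (Decomp)
open Pool.Agent.Helper81.Gen4 (Q)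
open Pool.Agent.Helper31.MHS Pool.Agent.Helper31.Gen5

/-- **Hardness for sustained machines with several heads**, with and without guessed letters. -/
theorem mhs_hard (c : ℕ) (hc : 0 < c) :
    ∃ L : Set (List Bool), DLINSPACE L ∧
      (∀ (D K : ℕ), 0 < D → 0 < K → ∀ (A : MultiHead D K) (E : Decomp) (C : ℝ),
        Hard L c (fun w α => Q (c * w.length) fun v => ∃ t, A.AcceptsAt w (α ++ v) t)
          (fun w α => Q (c * w.length) fun v => MHS.Within A E c C w (α ++ v))) ∧
      ∀ (D K : ℕ), 0 < D → 0 < K → ∀ (A : MultiHead D K) (E : Decomp) (C : ℝ),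
        Hard L c (fun w α => ∃ t, A.AcceptsAt w α t) (fun w α => MHS.Within A E c C w α) := by
  obtain ⟨L, h1, h4⟩ := q_hard (accB Pool.Agent.Helper65.RT.theSim c) NBW
    (ls_accB Pool.Agent.Helper65.RT.theSim c) theLSA.2 c c hc
  refine ⟨L, h1, fun D K hD hK A E C => ?_, fun D K hD hK A E C => ?_⟩
  · obtain ⟨e, n₀, he⟩ := theEXG Pool.Agent.Helper65.RT.theSim c hD hK A E C
    refine h4 (fun w y => ∃ t, A.AcceptsAt w y t) (MHS.Within A E c C) ⟨2 * e, n₀, ?_⟩
    intro w y hw
    have e1 : 2 * e / 2 = e := by omega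
    have e2 : 2 * e % 2 = 0 := by omega
    simp only [accB, e1, e2, ifz, if_true]
    exact he w y hw
  · obtain ⟨e, n₀, he⟩ := theEXG Pool.Agent.Helper65.RT.theSim c hD hK A E C
    have h := h4
      (fun w y => ∃ t, A.AcceptsAt w (y.take (y.length - 3 * c * w.length)) t)
      (fun w y => MHS.Within A E c C w (y.take (y.length - 3 * c * w.length)))
      ⟨2 * e + 1, n₀, ?_⟩
    · exact h.mono (fun w α h5 => (q_take c w α fun y => ∃ t, A.AcceptsAt w y t).1 h5)
        (fun w α h5 => (q_take c w α fun y => MHS.Within A E c C w y).2 h5)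
    · intro w y hw
      have e1 : (2 * e + 1) / 2 = e := by omega
      have e2 : (2 * e + 1) % 2 = 1 := by omega
      simp only [accB, e1, e2, ifz, one_ne_zero, if_false, drp_num]
      exact he w _ hw

/-- Hardness for machines with several heads gives hardness for Turing machines. -/
theorem tms_hard {c : ℕ} {L : Set (List Bool)}
    (h : ∀ (D K : ℕ), 0 < D → 0 < K → ∀ (A : MultiHead D K) (E : Decomp) (C : ℝ),
      Hard L c (fun w α => ∃ t, A.AcceptsAt w α t) (fun w α => MHS.Within A E c C w α))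
    {k : ℕ} (hk : 0 < k) (M : TM k) (code : M.Sym → List Bool) (hc : Function.Injective code)
    (hb : code M.blank = []) (E : Decomp) (C : ℝ) :
    Hard L c (fun w _ => ∃ t, TMS.AcceptsAt M w t) (fun w _ => TMS.Within M code E c C w) := by
  have hS : TMS.SIM_stmt := Pool.Agent.Helper20.TMS.sim
  obtain ⟨A, hA⟩ := TMS.exists_mach M hc
  obtain ⟨C', hC'⟩ := TMS.wth hS M code A E c C hb hA
  exact (h 1 k Nat.one_pos hk A E C').nil.mono
    (fun w _ h3 => (TMS.accepts_iff hS hb hA w []).1 h3) fun w _ h3 => hC' w h3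

theorem sustained_multi (c : ℕ) (hc : 0 < c) :
    (∀ (D K : ℕ), 0 < D → 0 < K → ∀ (A : MultiHead D K) (E : Decomp) (L : Set (List Bool)) (C : ℝ),
      (∀ w, Q (c * w.length) (fun v => ∃ t, A.AcceptsAt w v t) → w ∈ L) →
      (∀ w ∈ L, Q (c * w.length) (MHS.Within A E c C w)) → DLINSPACE L) ∧
    ∃ L : Set (List Bool), DLINSPACE L ∧
      (∀ (D K : ℕ), 0 < D → 0 < K → ∀ (A : MultiHead D K) (E : Decomp) (C : ℝ),
        Hard L c (fun w α => Q (c * w.length) fun v => ∃ t, A.AcceptsAt w (α ++ v) t)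
          (fun w α => Q (c * w.length) fun v => MHS.Within A E c C w (α ++ v))) ∧
      ∀ (k : ℕ), 0 < k → ∀ (M : TM k) (code : M.Sym → List Bool), Function.Injective code →
        code M.blank = [] → ∀ (E : Decomp) (C : ℝ),
        Hard L c (fun w _ => ∃ t, TMS.AcceptsAt M w t) (fun w _ => TMS.Within M code E c C w) := by
  refine ⟨fun D K hD hK A E L C h1 h2 => MHS.mhs_qlin c hD hK A E L C h1 h2, ?_⟩
  obtain ⟨L, h1, h2, h3⟩ := mhs_hard c hc
  exact ⟨L, h1, h2, fun k hk M code hcode hb E C => tms_hard h3 hk M code hcode hb E C⟩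

end Pool.Agent.Helper31.MHSH
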